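import Pool.Agent.W133.DQ.StF

set_option autoImplicit false

open Set Filter Topology

namespace Pool.Agent.W120.DQ

open Pool.Agent.W133.DQ

section

variable {Γ : Type} [Group Γ] {H : Subgroup Γ} {f : Γ → ℝ} {D : ℝ}

theorem pow_bound (hD : ∀ a ∈ H, ∀ b ∈ H, |f (a * b) - f a - f b| ≤ D) {x : Γ} (hx : x ∈ H)
    (n : ℕ) : |f (x ^ (n + 1)) - (n + 1) * f x| ≤ n * D := by
  induction n with
  | zero => simp
  | succ n ih =>
    have h1 := hD (x ^ (n + 1)) (H.pow_mem hx _) x hx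
    rw [← pow_succ] at h1
    push_cast
    have h2 : f (x ^ (n + 1 + 1)) - ((n : ℝ) + 1 + 1) * f x =
        (f (x ^ (n + 1 + 1)) - f (x ^ (n + 1)) - f x) + (f (x ^ (n + 1)) - (n + 1) * f x) := by
      ring
    rw [h2]
    calc |(f (x ^ (n + 1 + 1)) - f (x ^ (n + 1)) - f x) + (f (x ^ (n + 1)) - (n + 1) * f x)|
        ≤ |f (x ^ (n + 1 + 1)) - f (x ^ (n + 1)) - f x| + |f (x ^ (n + 1)) - (n + 1) * f x| :=
          abs_add_le _ _
      _ ≤ D + n * D := add_le_add h1 ih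
      _ = (n + 1) * D := by ring

theorem div_bound (hD : ∀ a ∈ H, ∀ b ∈ H, |f (a * b) - f a - f b| ≤ D) (hD0 : 0 ≤ D) {x : Γ}
    (hx : x ∈ H) {n : ℕ} (hn : 1 ≤ n) : |f (x ^ n) / n - f x| ≤ D := by
  obtain ⟨k, rfl⟩ : ∃ k, n = k + 1 := ⟨n - 1, by omega⟩
  have h1 := pow_bound hD hx k
  have hk : (0 : ℝ) < ((k + 1 : ℕ) : ℝ) := by positivity
  have h2 : f (x ^ (k + 1)) / ((k + 1 : ℕ) : ℝ) - f x =
      (f (x ^ (k + 1)) - (k + 1) * f x) / ((k + 1 : ℕ) : ℝ) := by
    push_cast at hk ⊢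
    field_simp
  rw [h2, abs_div, abs_of_pos hk, div_le_iff₀ hk]
  push_cast
  nlinarith

theorem lim_exists (hD : ∀ a ∈ H, ∀ b ∈ H, |f (a * b) - f a - f b| ≤ D) (hD0 : 0 ≤ D) {x : Γ}
    (hx : x ∈ H) : ∃ l, Tendsto (fun n : ℕ => f (x ^ n) / n) atTop (𝓝 l) := by
  have hsub : Subadditive (fun n : ℕ => f (x ^ n) + D) := by
    intro m n
    have h1 := hD (x ^ m) (H.pow_mem hx _) (x ^ n) (H.pow_mem hx _)
    rw [← pow_add] at h1
    have := (abs_le.1 h1).2
    simp only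
    linarith
  have hbdd : BddBelow (Set.range fun n : ℕ => (f (x ^ n) + D) / n) := by
    refine ⟨min (f x - D) 0, ?_⟩
    rintro _ ⟨n, rfl⟩
    rcases Nat.eq_zero_or_pos n with rfl | hn
    · simp
    · have h1 := (abs_le.1 (div_bound hD hD0 hx hn)).1
      have h2 : (0 : ℝ) ≤ D / n := by positivity
      simp only [add_div]
      exact le_trans (min_le_left _ _) (by linarith)
  have h1 := hsub.tendsto_lim hbdd
  have h2 : Tendsto (fun n : ℕ => D / (n : ℝ)) atTop (𝓝 0) := tendsto_const_div_atTop_nhds_zero_nat D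
  refine ⟨hsub.lim, ?_⟩
  have h3 := h1.sub h2
  rw [sub_zero] at h3
  refine h3.congr fun n => ?_
  ring

end

theorem homog : S_HOMOG := by
  intro Γ _ H f ⟨D, hD⟩
  classical
  have hD0 : 0 ≤ D := le_trans (abs_nonneg _) (hD 1 H.one_mem 1 H.one_mem)
  choose! μ hμ using fun (x : Γ) (hx : x ∈ H) => lim_exists hD hD0 hx
  have hclose : ∀ a ∈ H, |μ a - f a| ≤ D := by
    intro a ha
    have h1 : Tendsto (fun n : ℕ => |f (a ^ n) / n - f a|) atTop (𝓝 |μ a - f a|) :=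
      ((hμ a ha).sub_const _).abs
    refine le_of_tendsto h1 ?_
    filter_upwards [eventually_ge_atTop 1] with n hn
    exact div_bound hD hD0 ha hn
  have hone : μ 1 = 0 := by
    have h1 := hμ 1 H.one_mem
    have h2 : Tendsto (fun n : ℕ => f ((1 : Γ) ^ n) / n) atTop (𝓝 0) := by
      simp only [one_pow]
      exact tendsto_const_div_atTop_nhds_zero_nat _
    exact tendsto_nhds_unique h1 h2
  have hpow : ∀ a ∈ H, ∀ k : ℕ, μ (a ^ k) = k * μ a := by
    intro a ha k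
    rcases Nat.eq_zero_or_pos k with rfl | hk
    · simp [hone]
    · have h1 := hμ (a ^ k) (H.pow_mem ha k)
      have h2 : Tendsto (fun n : ℕ => k * (f (a ^ (k * n)) / ((k * n : ℕ) : ℝ))) atTop
          (𝓝 (k * μ a)) := by
        refine Tendsto.const_mul _ ?_
        exact (hμ a ha).comp (tendsto_id.const_mul_atTop' hk)
      refine tendsto_nhds_unique h1 (h2.congr fun n => ?_)
      rw [pow_mul]
      have hk' : (k : ℝ) ≠ 0 := by positivity
      push_cast
      rcases Nat.eq_zero_or_pos n with rfl | hn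
      · simp
      · have hn' : (n : ℝ) ≠ 0 := by positivity
        field_simp
  have hinv : ∀ a ∈ H, μ a⁻¹ = - μ a := by
    intro a ha
    have h1 := (hμ a ha).add (hμ a⁻¹ (H.inv_mem ha))
    have h2 : Tendsto (fun n : ℕ => f (a ^ n) / n + f (a⁻¹ ^ n) / n) atTop (𝓝 0) := by
      have h3 : ∀ n : ℕ, |f (a ^ n) / n + f (a⁻¹ ^ n) / n| ≤ (D + |f 1|) / n := by
        intro n
        rw [← add_div, abs_div, Nat.abs_cast]
        apply div_le_div_of_nonneg_right _ (Nat.cast_nonneg n)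
        have h4 := hD (a ^ n) (H.pow_mem ha n) (a⁻¹ ^ n) (H.pow_mem (H.inv_mem ha) n)
        rw [inv_pow, mul_inv_cancel] at h4
        rw [inv_pow]
        have h5 : f (a ^ n) + f (a ^ n)⁻¹ = -(f 1 - f (a ^ n) - f (a ^ n)⁻¹) + f 1 := by ring
        rw [h5]
        calc _ ≤ |-(f 1 - f (a ^ n) - f (a ^ n)⁻¹)| + |f 1| := abs_add_le _ _
          _ ≤ D + |f 1| := by rw [abs_neg]; linarith
      exact squeeze_zero_norm h3 (tendsto_const_div_atTop_nhds_zero_nat _)
    have := tendsto_nhds_unique h1 h2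
    linarith
  refine ⟨μ, ⟨⟨D + D + D + D, ?_⟩, ?_⟩, D, hclose⟩
  · intro a ha b hb
    have h1 := abs_le.1 (hD a ha b hb)
    have h2 := abs_le.1 (hclose a ha)
    have h3 := abs_le.1 (hclose b hb)
    have h4 := abs_le.1 (hclose (a * b) (H.mul_mem ha hb))
    rw [abs_le]
    constructor <;> linarith [h1.1, h1.2, h2.1, h2.2, h3.1, h3.2, h4.1, h4.2]
  · intro a ha n
    obtain ⟨k, rfl | rfl⟩ := n.eq_nat_or_neg
    · rw [zpow_natCast, hpow a ha k]
      simp
    · rw [zpow_neg, zpow_natCast, hinv _ (H.pow_mem ha k), hpow a ha k]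
      push_cast
      ring

end Pool.Agent.W120.DQ
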