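import Pool.Agent.W133.DQ.StC
import Pool.Agent.W133.DQ.StF

set_option autoImplicit false

open scoped ContDiff
open Set Filter Topology

namespace Pool.Agent.W120.DQ

open Pool.Agent.W133.DQ

/-- Pull back of a homogeneous quasimorphism under a partially multiplicative map. -/
theorem hqm_comp {Γ Δ : Type} [Group Γ] [Group Δ] (K : Subgroup Γ) (H : Subgroup Δ) (J : Γ → Δ)
    (μ : Δ → ℝ) (hJ : ∀ f ∈ K, J f ∈ H) (hm : ∀ f ∈ K, ∀ g ∈ K, J (f * g) = J f * J g)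
    (hμ : HQMOn H μ) : HQMOn K (fun f => μ (J f)) := by
  obtain ⟨⟨D, hD⟩, hh⟩ := hμ
  refine ⟨⟨D, fun a ha b hb => ?_⟩, fun a ha n => ?_⟩
  · simp only
    rw [hm a ha b hb]
    exact hD _ (hJ a ha) _ (hJ b hb)
  · let φ : K →* Δ := MonoidHom.mk' (fun x => J x.1) (fun x y => hm x.1 x.2 y.1 y.2)
    have h1 : J (a ^ n) = (J a) ^ n := by
      have := map_zpow φ ⟨a, ha⟩ n
      exact this
    simp only
    rw [h1]
    exact hh _ (hJ a ha) n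

theorem main (hJJ : S_JJ) (hJB : S_JB) (hFACT : S_FACT) (hDISP : S_DISP) (hGN : S_GNORM)
    (hFF : S_FFIN) (hNK : S_NKILL) (hEF : S_EFIN) (hROT : S_ROT) (_ : S_A1) (hA4 : S_A4) :
    S_MAIN := by
  obtain ⟨J, J1, J2, J3, J4, -⟩ := hJJ
  obtain ⟨I, I1, I2, I3, I4, -⟩ := hJB
  obtain ⟨-, -, -, hr, -⟩ := hROT
  have hG0 : G0 ≤ GG := fun _ h => h.1
  have hG1 : G1 ≤ GG := fun _ h => h.1
  refine ⟨J (rot (2 * Real.pi)), hG0 (J1 _ (hr _)), fun μ hμ hT => ?_⟩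
  -- the restriction to `G0`
  have h1 : HQMOn DC0 (fun f => μ (J f)) :=
    hqm_comp DC0 GG J μ (fun f hf => hG0 (J1 f hf)) J2 hμ
  have h2 : HomOn NP (fun f => μ (J f)) := by
    intro a ha b hb
    simp only
    rw [J2 a (NP_le_DC0 ha) b (NP_le_DC0 hb)]
    exact hDISP μ hμ _ ⟨J1 a (NP_le_DC0 ha), J3 a ha⟩ _ ⟨J1 b (NP_le_DC0 hb), J3 b hb⟩
  have h3 : ∀ f ∈ NP, μ (J f) = 0 := hNK (fun f => μ (J f)) h2 hT
  have h4 : HomOn DC0 (fun f => μ (J f)) := hEF _ h1 h3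
  have h5 : HomOn G0 μ := by
    intro a ha b hb
    obtain ⟨f, hf, rfl, -⟩ := J4 a ha
    obtain ⟨g, hg, rfl, -⟩ := J4 b hb
    rw [← J2 f hf g hg]
    exact h4 f hf g hg
  -- vanishing on the intersection
  have h6 : ∀ n ∈ G0, n ∈ G1 → μ n = 0 := by
    intro n hn hn'
    obtain ⟨f, hf, rfl, hf'⟩ := J4 n hn
    exact h3 f (hf' hn')
  -- the restriction to `G1`
  have h7 : HQMOn BB (fun f => μ (I f)) :=
    hqm_comp BB GG I μ (fun f hf => hG1 (I1 f hf)) I2 hμ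
  have h8 : ∀ f ∈ BB, μ (I f) = 0 :=
    hFF _ h7 (fun f hf => h6 _ (I3 f hf) (I1 f hf.1))
  have h9 : ∀ g ∈ G1, μ g = 0 := by
    intro g hg
    obtain ⟨f, hf, rfl⟩ := I4 g hg
    exact h8 f hf
  have h10 : HomOn G1 μ := by
    intro a ha b hb
    rw [h9 _ ha, h9 _ hb, h9 _ (G1.mul_mem ha hb), add_zero]
  exact hA4 (Equiv.Perm DD) GG G0 G1 μ hμ hG0 hG1 hGN.1 hGN.2
    (fun a ha => by
      obtain ⟨b, hb, c, hc, h⟩ := hFACT a ha
      exact ⟨b, hb, c, hc, h⟩) h6 h5 h10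

end Pool.Agent.W120.DQ
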