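import Pool.Agent.W133.DQ.StB
import Pool.Agent.W133.DQ.StC

set_option autoImplicit false

open scoped ContDiff
open Set Filter Topology

namespace Pool.Agent.W120.DQ

open Pool.Agent.W133.DQ

/-- the swap of the coordinates -/
def sig : Equiv.Perm P2 := Equiv.prodComm ℝ ℝ

theorem sig_apply (p : P2) : sig p = (p.2, p.1) := rfl

theorem sig_sig : sig * sig = 1 := by
  ext p <;> rfl

theorem sig_inv : sig⁻¹ = sig := inv_eq_of_mul_eq_one_left sig_sig

theorem sig_norm (p : P2) : ‖sig p‖ = ‖p‖ := by
  rw [sig_apply, Prod.norm_def, Prod.norm_def, max_comm]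

theorem smD_sig : SmD sig := by
  have h : ContDiff ℝ ∞ (fun p : P2 => sig p) := by
    have : (fun p : P2 => sig p) = fun p : P2 => (p.2, p.1) := by
      funext p; rfl
    rw [this]
    exact contDiff_snd.prodMk contDiff_fst
  exact ⟨h, by rw [sig_inv]; exact h⟩

theorem conj_DC {f : Equiv.Perm P2} (hf : f ∈ DC) : sig * f * sig ∈ DC := by
  obtain ⟨h1, R, hR⟩ := hf
  refine ⟨smD_mul (smD_mul smD_sig h1) smD_sig, R, fun p hp => ?_⟩
  rw [Equiv.Perm.mul_apply, Equiv.Perm.mul_apply, hR (sig p) (by rw [sig_norm]; exact hp)]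
  rfl

theorem pp (hBIG : S_BIG) (hGEN : S_GEN) : S_PP := by
  intro L hL
  have hconj : ∀ f : Equiv.Perm P2, sig * (sig * f * sig) * sig = f := by
    intro f
    rw [show sig * (sig * f * sig) * sig = (sig * sig) * f * (sig * sig) by group]
    rw [sig_sig, one_mul, mul_one]
  have h1 : HomOn DC (fun f => L (sig * f * sig)) := by
    intro a ha b hb
    simp only
    rw [← hL _ (conj_DC ha) _ (conj_DC hb)]
    have h2 : sig * a * sig * (sig * b * sig) = sig * (a * b) * sig := by
      calc sig * a * sig * (sig * b * sig) = sig * a * (sig * sig) * b * sig := by group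
        _ = sig * (a * b) * sig := by rw [sig_sig]; group
    rw [h2]
  refine hGEN L hL (hBIG L hL) ?_
  intro P hP
  have h2 : sig * P * sig ∈ LP := by
    refine ⟨conj_DC hP.1, fun p => ?_⟩
    rw [Equiv.Perm.mul_apply, Equiv.Perm.mul_apply, sig_apply, sig_apply]
    exact hP.2 (p.2, p.1)
  have h3 := hBIG _ h1 _ h2
  simp only [hconj] at h3
  exact h3

end Pool.Agent.W120.DQ
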